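import Mathlib
import Pool.Agent.H10.C74Defs
import Pool.Agent.H10.C74Proof

open Pool.Agent.H10.C74

namespace Pool.Agent.Results.MP_c74d57_an.NoRational

theorem result : ∃ (nz nw nu ny : ℕ) (H : MatSeq nz nw) (U : MatSeq nz nu) (V : MatSeq ny nw),
    1 ≤ nz ∧ 1 ≤ nw ∧ 1 ≤ nu ∧ 1 ≤ ny ∧ IsL1 H ∧ IsL1 U ∧ IsL1 V ∧
    IsRational H ∧ IsRational U ∧ IsRational V ∧
    ¬ (FullRowRank U ∧ FullColRank V) ∧
    (∃ Q, IsOptimal H U V Q) ∧ ∀ Q, IsOptimal H U V Q → ¬ IsRational Q :=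
  main

end Pool.Agent.Results.MP_c74d57_an.NoRational
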